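import Mathlib
import Pool.Agent.Helper53.FMQuotDefs
import Pool.Agent.Helper53.FMQuotProof

/-!
# The spaces `X_A = FMQ(beta N \ N, A, D)` are `k_2`-Hausdorff
-/

namespace Pool.Agent.Results.MP_a8a70f_gt.FullAnswer

open Pool.Agent.Helper53.FMQuot

universe v

/-- **Full (positive) answer to Q1.**  For every nonempty closed subset `A` of `beta N \ N`
(in particular for every nonempty finite `A`), the space `X_A = FMQ(beta N \ N, A, D)` is
`k_2`-Hausdorff. -/
theorem result (A : Set Remainder) (_hne : A.Nonempty) (hA : IsClosed A) :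
    IsK2Hausdorff.{0, v} (FMQ Remainder A) :=
  isK2Hausdorff_of_crowded Remainder remainder_crowded A hA

end Pool.Agent.Results.MP_a8a70f_gt.FullAnswer
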